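import Pool.Agent.Helper36.CV.StmtsR

set_option autoImplicit false

namespace Pool.Agent.Helper25.CV.L3

open Pool.Agent.Helper36.CV

/-- polynomial core -/
theorem core {h t d c X A B a b PL PR T G : ℝ}
    (ha : a = 1 + c * X) (hb : b = a + c * d) (hA : A = t ^ 2 - h ^ 2) (hB : B = (t + d) ^ 2 - h ^ 2)
    (hPL : PL = t * a + c * A) (hPR : PR = (t + d) * b + c * B) (hT : T = t * (t + d) - h ^ 2)
    (hG : G = b * PR - a * PL) :
    2 * d * PL * PR + A * a * PR - B * b * PL = T * G - c ^ 2 * d ^ 3 * (2 * (t * (t + d)) + h ^ 2) := by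
  subst hG hT hPL hPR hA hB hb ha
  ring


theorem aux_abs {c x h k : ℝ} (hx : |x| ≤ k * h) (hc : |c| * h ≤ 1 / 100) (hk : 0 ≤ k) : |c * x| ≤ k / 100 := by
  rw [abs_mul]
  calc |c| * |x| ≤ |c| * (k * h) := mul_le_mul_of_nonneg_left hx (abs_nonneg c)
    _ = k * (|c| * h) := by ring
    _ ≤ k * (1 / 100) := mul_le_mul_of_nonneg_left hc hk
    _ = k / 100 := by ring

theorem aux_sub_sq {t h : ℝ} (h0 : 0 < h) (ht : h < t) (h2 : t ≤ 7 / 5 * h) :
    0 < t ^ 2 - h ^ 2 ∧ t ^ 2 - h ^ 2 ≤ h * t := by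
  constructor
  · nlinarith
  · nlinarith

theorem aux_T {t d h : ℝ} (h0 : 0 < h) (ht : h < t) (d0 : 0 < d) (h2 : t + d ≤ 7 / 5 * h) :
    0 < t * (t + d) - h ^ 2 ∧ t * (t + d) ≤ 49 / 25 * h ^ 2 := by
  constructor
  · nlinarith
  · have : t * (t + d) ≤ (7 / 5 * h) * (7 / 5 * h) := by
      apply mul_le_mul (by linarith) h2 (by linarith) (by linarith)
    calc t * (t + d) ≤ (7 / 5 * h) * (7 / 5 * h) := this
      _ = 49 / 25 * h ^ 2 := by ring

theorem aux_g {x y z w : ℝ} (b1 : |x| ≤ 14 / 1000) (b2 : |y| ≤ 2 / 1000) (b3 : |z| ≤ 4 / 1000) (b4 : |w| ≤ 1 / 100) :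
    4 / 5 ≤ 1 + 2 * y + 4 * x + 3 * z + (x ^ 2 + 3 * x * z + 4 * x * y + 2 * z ^ 2 + 3 * z * y + y ^ 2 - w ^ 2) := by
  obtain ⟨b1l, b1u⟩ := abs_le.mp b1
  obtain ⟨b2l, b2u⟩ := abs_le.mp b2
  obtain ⟨b3l, b3u⟩ := abs_le.mp b3
  have e1 : -(1 / 1000) ≤ x * z := by
    have : |x * z| ≤ 14 / 1000 * (4 / 1000) := by
      rw [abs_mul]; exact mul_le_mul b1 b3 (abs_nonneg _) (by norm_num)
    linarith [neg_abs_le (x * z)]
  have e2 : -(1 / 1000) ≤ x * y := by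
    have : |x * y| ≤ 14 / 1000 * (2 / 1000) := by
      rw [abs_mul]; exact mul_le_mul b1 b2 (abs_nonneg _) (by norm_num)
    linarith [neg_abs_le (x * y)]
  have e3 : -(1 / 1000) ≤ z * y := by
    have : |z * y| ≤ 4 / 1000 * (2 / 1000) := by
      rw [abs_mul]; exact mul_le_mul b3 b2 (abs_nonneg _) (by norm_num)
    linarith [neg_abs_le (z * y)]
  have e4 : w ^ 2 ≤ (1 / 100) ^ 2 := by
    obtain ⟨l, u⟩ := abs_le.mp b4
    exact sq_le_sq' l u
  have e5 := sq_nonneg x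
  have e6 := sq_nonneg y
  have e7 := sq_nonneg z
  linarith

theorem aux_2T {T Q k : ℝ} (h : (T - Q) * (T + Q) = k) (hQT : Q < T) : k ≤ 2 * T * (T - Q) := by
  have h1 : (T - Q) * (T + Q) ≤ (T - Q) * (2 * T) := mul_le_mul_of_nonneg_left (by linarith) (by linarith)
  calc k = (T - Q) * (T + Q) := h.symm
    _ ≤ (T - Q) * (2 * T) := h1
    _ = 2 * T * (T - Q) := by ring

theorem st_L3 : ST_L3 := by
  intro h τL τR qL qR c XL XR ρ D WL WR DL DR h0 hL hLR hqL hqR hρ hρD hD1 hD2 hDh hXL hXR hX hc hWL hWR hDL hDR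
  obtain ⟨d, hd⟩ : ∃ d : ℝ, d = τR - τL := ⟨_, rfl⟩
  have hτR : τR = τL + d := by rw [hd]; ring
  have hXR' : XR = XL + d := by rw [hd]; linarith
  have d0 : 0 < d := by rw [hd]; linarith
  have tR : τR ≤ 7 / 5 * h := by linarith
  have tL : τL ≤ 7 / 5 * h := by linarith
  have dl : d ≤ 2 / 5 * h := by rw [hd]; linarith
  have xl : |XL| ≤ h / 5 := by linarith
  -- bounds for products with c
  have c0 : 0 ≤ |c| := abs_nonneg c
  have b1 : |c * τL| ≤ 14 / 1000 := by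
    have := aux_abs (c := c) (x := τL) (h := h) (k := 7 / 5) (by rw [abs_of_pos (by linarith : (0:ℝ) < τL)]; exact tL) hc (by norm_num)
    linarith
  have b2 : |c * XL| ≤ 2 / 1000 := by
    have := aux_abs (c := c) (x := XL) (h := h) (k := 1 / 5) (by linarith) hc (by norm_num)
    linarith
  have b3 : |c * d| ≤ 4 / 1000 := by
    have := aux_abs (c := c) (x := d) (h := h) (k := 2 / 5) (by rw [abs_of_pos d0]; exact dl) hc (by norm_num)
    linarith
  have b4 : |c * h| ≤ 1 / 100 := by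
    rw [abs_mul, abs_of_pos h0]; exact hc
  obtain ⟨b1l, b1u⟩ := abs_le.mp b1
  obtain ⟨b2l, b2u⟩ := abs_le.mp b2
  obtain ⟨b3l, b3u⟩ := abs_le.mp b3
  obtain ⟨b4l, b4u⟩ := abs_le.mp b4
  obtain ⟨A, hA⟩ : ∃ A : ℝ, A = τL ^ 2 - h ^ 2 := ⟨_, rfl⟩
  obtain ⟨B, hB⟩ : ∃ B : ℝ, B = (τL + d) ^ 2 - h ^ 2 := ⟨_, rfl⟩
  have A0 : 0 < A := by rw [hA]; exact (aux_sub_sq h0 hL tL).1
  have B0 : 0 < B := by rw [hB]; exact (aux_sub_sq h0 (by linarith) (by linarith)).1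
  have qL0 : 0 < qL := by rw [hqL]; exact Real.sqrt_pos.mpr (by rw [← hA]; exact A0)
  have qR0 : 0 < qR := by rw [hqR, hτR]; exact Real.sqrt_pos.mpr (by rw [← hB]; exact B0)
  have qL2 : qL ^ 2 = A := by rw [hqL, ← hA]; exact Real.sq_sqrt A0.le
  have qR2 : qR ^ 2 = B := by rw [hqR, hτR, ← hB]; exact Real.sq_sqrt B0.le
  obtain ⟨a, ha⟩ : ∃ a : ℝ, a = 1 + c * XL := ⟨_, rfl⟩
  obtain ⟨b, hb⟩ : ∃ b : ℝ, b = a + c * d := ⟨_, rfl⟩
  obtain ⟨PL, hPL⟩ : ∃ P : ℝ, P = τL * a + c * A := ⟨_, rfl⟩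
  obtain ⟨PR, hPR⟩ : ∃ P : ℝ, P = (τL + d) * b + c * B := ⟨_, rfl⟩
  obtain ⟨T, hT⟩ : ∃ T : ℝ, T = τL * (τL + d) - h ^ 2 := ⟨_, rfl⟩
  obtain ⟨G, hG⟩ : ∃ G : ℝ, G = b * PR - a * PL := ⟨_, rfl⟩
  have hcore := core ha hb hA hB hPL hPR hT hG
  have a1 : 99 / 100 ≤ a := by rw [ha]; linarith
  have b1' : 99 / 100 ≤ b := by rw [hb, ha]; linarith
  have Ah : A ≤ h * τL := by rw [hA]; exact (aux_sub_sq h0 hL tL).2
  have Bh : B ≤ h * (τL + d) := by rw [hB]; exact (aux_sub_sq h0 (by linarith) (by linarith)).2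
  have cA : -(1 / 100 * τL) ≤ c * A := by
    have : |c * A| ≤ 1 / 100 * τL := by
      rw [abs_mul, abs_of_pos A0]
      calc |c| * A ≤ |c| * (h * τL) := by apply mul_le_mul_of_nonneg_left Ah c0
        _ = (|c| * h) * τL := by ring
        _ ≤ 1 / 100 * τL := by apply mul_le_mul_of_nonneg_right hc (by linarith)
    linarith [neg_abs_le (c * A)]
  have cB : -(1 / 100 * (τL + d)) ≤ c * B := by
    have : |c * B| ≤ 1 / 100 * (τL + d) := by
      rw [abs_mul, abs_of_pos B0]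
      calc |c| * B ≤ |c| * (h * (τL + d)) := by apply mul_le_mul_of_nonneg_left Bh c0
        _ = (|c| * h) * (τL + d) := by ring
        _ ≤ 1 / 100 * (τL + d) := by apply mul_le_mul_of_nonneg_right hc (by linarith)
    linarith [neg_abs_le (c * B)]
  have PL0 : 0 < PL := by
    rw [hPL]
    have : 99 / 100 * τL ≤ τL * a := by
      have := mul_le_mul_of_nonneg_left a1 (by linarith : (0:ℝ) ≤ τL)
      linarith
    linarith
  have PR0 : 0 < PR := by
    rw [hPR]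
    have : 99 / 100 * (τL + d) ≤ (τL + d) * b := by
      have := mul_le_mul_of_nonneg_left b1' (by linarith : (0:ℝ) ≤ τL + d)
      linarith
    linarith
  have hT2 := aux_T h0 hL d0 (by linarith : τL + d ≤ 7 / 5 * h)
  have T0 : 0 < T := by rw [hT]; exact hT2.1
  have TU : T ≤ 24 / 25 * h ^ 2 := by rw [hT]; linarith [hT2.2]
  -- lower bound of G
  have hGd : G = d * (1 + 2 * (c * XL) + 4 * (c * τL) + 3 * (c * d) + ((c * τL) ^ 2 + 3 * (c * τL) * (c * d)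
      + 4 * (c * τL) * (c * XL) + 2 * (c * d) ^ 2 + 3 * (c * d) * (c * XL) + (c * XL) ^ 2 - (c * h) ^ 2)) := by
    subst hG hPL hPR hA hB hb ha
    ring
  have hg := aux_g b1 b2 b3 b4
  have G0 : 4 / 5 * d ≤ G := by
    rw [hGd, mul_comm]
    exact mul_le_mul_of_nonneg_left hg d0.le
  have Gp : 0 < G := by linarith
  -- Q = qL qR
  obtain ⟨Q, hQ⟩ : ∃ Q : ℝ, Q = qL * qR := ⟨_, rfl⟩
  have Q0 : 0 < Q := by rw [hQ]; positivity
  have Q2 : Q ^ 2 = A * B := by rw [hQ, mul_pow, qL2, qR2]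
  have hTQ : (T - Q) * (T + Q) = h ^ 2 * d ^ 2 := by
    have : (T - Q) * (T + Q) = T ^ 2 - Q ^ 2 := by ring
    rw [this, Q2, hT, hA, hB]; ring
  have hQT : Q < T := by
    by_contra hcon
    push Not at hcon
    have h1 : (T - Q) * (T + Q) ≤ 0 := mul_nonpos_of_nonpos_of_nonneg (by linarith) (by linarith)
    have h2 : 0 < h ^ 2 * d ^ 2 := by positivity
    linarith
  have h2T : h ^ 2 * d ^ 2 ≤ 2 * T * (T - Q) := aux_2T hTQ hQT
  -- main inequality
  have hmain : Q * G ≤ 2 * d * PL * PR + A * a * PR - B * b * PL := by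
    rw [hcore]
    have key : c ^ 2 * d ^ 3 * (2 * (τL * (τL + d)) + h ^ 2) ≤ (T - Q) * G := by
      have hh0 : 0 < h ^ 2 := by positivity
      have s1 : 2 * (τL * (τL + d)) + h ^ 2 ≤ 5 * h ^ 2 := by linarith [hT2.2]
      have s2 : c ^ 2 * h ^ 2 ≤ 1 / 10000 := by
        have : (c * h) ^ 2 ≤ (1 / 100) ^ 2 := by
          apply sq_le_sq' b4l b4u
        calc c ^ 2 * h ^ 2 = (c * h) ^ 2 := by ring
          _ ≤ (1 / 100) ^ 2 := this
          _ = 1 / 10000 := by norm_num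
      have s3 : c ^ 2 * d ^ 3 * (2 * (τL * (τL + d)) + h ^ 2) ≤ 5 / 10000 * d ^ 3 := by
        have d3 : 0 < d ^ 3 := by positivity
        calc c ^ 2 * d ^ 3 * (2 * (τL * (τL + d)) + h ^ 2) ≤ c ^ 2 * d ^ 3 * (5 * h ^ 2) := by
              apply mul_le_mul_of_nonneg_left s1 (by positivity)
          _ = (c ^ 2 * h ^ 2) * (5 * d ^ 3) := by ring
          _ ≤ 1 / 10000 * (5 * d ^ 3) := by apply mul_le_mul_of_nonneg_right s2 (by positivity)
          _ = 5 / 10000 * d ^ 3 := by ring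
      have s4 : d ^ 2 / 2 * (25 / 24) ≤ T - Q := by
        have hh : 0 < h ^ 2 := by positivity
        have u1 : 2 * T * (T - Q) ≤ 2 * (24 / 25 * h ^ 2) * (T - Q) := by
          apply mul_le_mul_of_nonneg_right (by linarith) (by linarith)
        have u3 : h ^ 2 * d ^ 2 ≤ 2 * (24 / 25 * h ^ 2) * (T - Q) := le_trans h2T u1
        have u2 : h ^ 2 * (d ^ 2 / 2 * (25 / 24)) ≤ h ^ 2 * (T - Q) := by
          have e1 : h ^ 2 * (d ^ 2 / 2 * (25 / 24)) = (h ^ 2 * d ^ 2) * (25 / 48) := by ring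
          have e2 : h ^ 2 * (T - Q) = (2 * (24 / 25 * h ^ 2) * (T - Q)) * (25 / 48) := by ring
          rw [e1, e2]
          exact mul_le_mul_of_nonneg_right u3 (by norm_num)
        exact le_of_mul_le_mul_left u2 hh
      calc c ^ 2 * d ^ 3 * (2 * (τL * (τL + d)) + h ^ 2) ≤ 5 / 10000 * d ^ 3 := s3
        _ ≤ (d ^ 2 / 2 * (25 / 24)) * (4 / 5 * d) := by
            have d3 : 0 < d ^ 3 := by positivity
            have e1 : (d ^ 2 / 2 * (25 / 24)) * (4 / 5 * d) = 5 / 12 * d ^ 3 := by ring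
            rw [e1]
            exact mul_le_mul_of_nonneg_right (by norm_num) d3.le
        _ ≤ (T - Q) * G := by
            apply mul_le_mul s4 G0 (by positivity) (by linarith)
    have e1 : (T - Q) * G = T * G - Q * G := by ring
    linarith
  have hfin : (qR * b - qL * a) * (qL * PR + qR * PL) ≤ 2 * d * PL * PR := by
    have : (qR * b - qL * a) * (qL * PR + qR * PL) = Q * G + B * b * PL - A * a * PR := by
      rw [hG, hQ, ← qL2, ← qR2]; ring
    rw [this]; linarith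
  have hbR : 1 + c * XR = b := by rw [hXR', hb, ha]; ring
  have hDL' : DL = PL / qL := by
    rw [hDL, hPL, ← ha, ← qL2]; field_simp
  have hDR' : DR = PR / qR := by
    rw [hDR, hPR, hbR, ← qR2, hτR]; field_simp
  have hinv : 1 / DL + 1 / DR = (qL * PR + qR * PL) / (PL * PR) := by
    rw [hDL', hDR']; field_simp
  rw [hinv, hWL, hWR, hbR, ← ha]
  rw [show τR - τL = d by rw [hd]]
  rw [← mul_div_assoc, div_le_iff₀ (by positivity)]
  calc (qR * b - qL * a) * (qL * PR + qR * PL) ≤ 2 * d * PL * PR := hfin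
    _ = 2 * d * (PL * PR) := by ring

end Pool.Agent.Helper25.CV.L3
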